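import Mathlib
import Pool.Prelude.Def_F_c31e40fa
import Pool.Agent.Y736.ML6
import Pool.Agent.Y736.ML9
import Pool.Agent.Y736.ML10

set_option autoImplicit false

open Filter Topology Set N62a1eb23

namespace Pool.Agent.Results.MP_c6f924_an.GenericallyNotHoelder

open Pool.Agent.H713R2

/-- Let `ψ` be the exterior conformal map of the Mandelbrot set `M`; `‖w‖ - 1` is comparable with
Green's function of `M` at `ψ w`.

(1) Every parabolic parameter `c₀` (some cycle of `z ^ 2 + c₀` has a root of unity as multiplier) is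
on the boundary of `M`, and `‖w‖ - 1 ≤ 12 * exp (-A / √‖ψ w - c₀‖)`; if the multiplier is not `1`
(satellite parameters), even `‖w‖ - 1 ≤ 12 * exp (-A / ‖ψ w - c₀‖)`.

(2) A dense `G_δ` subset `G` of the boundary of `M`, which contains all satellite parameters (they
are dense), consists of parameters `c₀` such that for every `s < 1` there are arbitrarily small `ρ`
with `‖w‖ - 1 < exp (-ρ ^ (-s))` whenever `‖ψ w - c₀‖ ≤ ρ`.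

(3) If `ψ` has a continuous extension `F` to the circle (as it does when `M` is locally connected),
then `F` takes every value `c₀ ∈ G` on the circle, and at every point `ζ` of the circle over `c₀`
the restriction of `F` to the circle has no modulus of continuity
`‖F ξ - F ζ‖ ≤ K / log (1 / ‖ξ - ζ‖) ^ p` with `p > 1`; in particular no Hölder condition holds. -/
theorem result :
    (∃ ψ : ℂ → ℂ, IsExteriorMap mandelbrotSet ψ) ∧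
    (∀ (c₀ z₀ : ℂ) (m q : ℕ), 1 ≤ m → 1 ≤ q → (fun z : ℂ => z ^ 2 + c₀)^[m] z₀ = z₀ →
      deriv ((fun z : ℂ => z ^ 2 + c₀)^[m]) z₀ ^ q = 1 →
      c₀ ∈ frontier mandelbrotSet ∧
      (∃ A : ℝ, 0 < A ∧ ∀ ψ : ℂ → ℂ, IsExteriorMap mandelbrotSet ψ → ∀ w : ℂ, 1 < ‖w‖ →
        ‖w‖ ≤ 2 → ‖w‖ - 1 ≤ 12 * Real.exp (-(A / √‖ψ w - c₀‖))) ∧
      (deriv ((fun z : ℂ => z ^ 2 + c₀)^[m]) z₀ ≠ 1 →
        ∃ A : ℝ, 0 < A ∧ ∀ ψ : ℂ → ℂ, IsExteriorMap mandelbrotSet ψ → ∀ w : ℂ, 1 < ‖w‖ →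
          ‖w‖ ≤ 2 → ‖w‖ - 1 ≤ 12 * Real.exp (-(A / ‖ψ w - c₀‖)))) ∧
    frontier mandelbrotSet ⊆ closure {c₀ : ℂ | ∃ (m q : ℕ) (z₀ : ℂ), 1 ≤ m ∧ 1 ≤ q ∧
      (fun z : ℂ => z ^ 2 + c₀)^[m] z₀ = z₀ ∧ deriv ((fun z : ℂ => z ^ 2 + c₀)^[m]) z₀ ≠ 1 ∧
      deriv ((fun z : ℂ => z ^ 2 + c₀)^[m]) z₀ ^ q = 1} ∧
    ∃ G : Set ℂ, IsGδ G ∧ G ⊆ frontier mandelbrotSet ∧ frontier mandelbrotSet ⊆ closure G ∧
      (∀ (c₀ z₀ : ℂ) (m q : ℕ), 1 ≤ m → 1 ≤ q → (fun z : ℂ => z ^ 2 + c₀)^[m] z₀ = z₀ →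
        deriv ((fun z : ℂ => z ^ 2 + c₀)^[m]) z₀ ≠ 1 →
        deriv ((fun z : ℂ => z ^ 2 + c₀)^[m]) z₀ ^ q = 1 → c₀ ∈ G) ∧
      ∀ c₀ ∈ G,
        (∀ s δ : ℝ, s < 1 → 0 < δ → ∃ ρ : ℝ, 0 < ρ ∧ ρ < δ ∧ ∀ ψ : ℂ → ℂ,
          IsExteriorMap mandelbrotSet ψ → ∀ w : ℂ, 1 < ‖w‖ → ‖w‖ ≤ 2 → ‖ψ w - c₀‖ ≤ ρ →
            ‖w‖ - 1 < Real.exp (-(ρ ^ (-s)))) ∧
        ∀ ψ F : ℂ → ℂ, IsExteriorMap mandelbrotSet ψ → ContinuousOn F {w : ℂ | 1 ≤ ‖w‖} →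
          (∀ w : ℂ, 1 < ‖w‖ → F w = ψ w) →
            (∃ ζ : ℂ, ‖ζ‖ = 1 ∧ F ζ = c₀) ∧
            ∀ ζ : ℂ, ‖ζ‖ = 1 → F ζ = c₀ → ∀ p K : ℝ, 1 < p →
              ¬ ∀ ξ : ℂ, ‖ξ‖ = 1 → 0 < ‖ξ - ζ‖ → ‖ξ - ζ‖ ≤ 1 / 2 →
                ‖F ξ - F ζ‖ ≤ K / Real.log (1 / ‖ξ - ζ‖) ^ p := by
  have hcl : IsClosed (multibrotSet 2) := (Pool.Agent.H712R2.isCompact_multibrot le_rfl).isClosed
  obtain ⟨β, hβ⟩ := exists_beta (d := 2) le_rfl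
  refine ⟨⟨_, exteriorMap_of_beta hβ⟩, ?_, ?_, ?_⟩
  · intro c₀ z₀ m q hm hq hfix hder
    obtain ⟨hmem, C, hC⟩ := Pool.Agent.Y736.ML.parabolic_all hm hq hfix hder
    refine ⟨?_, Pool.Agent.Y736.HL.upper_exp hmem hC, ?_⟩
    · exact Pool.Agent.Y736.ML.neutral_frontier hm hmem hfix
        (Complex.norm_eq_one_of_pow_eq_one hder (by omega))
    · intro hne
      exact Pool.Agent.Y736.ML.sat_rate hm hq hfix hne hder
  · refine Pool.Agent.Y736.ML.sat_dense.trans (closure_mono ?_)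
    rintro t ⟨_, m, q, z, h1, h2, h3, h4, h5⟩
    exact ⟨m, q, z, h1, h2, h3, h4, h5⟩
  · obtain ⟨G, h1, h2, h3, h4, h5⟩ := Pool.Agent.Y736.ML.generic
      (E := {t | t ∈ frontier (multibrotSet 2) ∧ ∃ (m q : ℕ) (z : ℂ), 1 ≤ m ∧ 1 ≤ q ∧
        (Pool.Agent.H712R2.fc 2 t)^[m] z = z ∧ deriv ((Pool.Agent.H712R2.fc 2 t)^[m]) z ≠ 1 ∧
        deriv ((Pool.Agent.H712R2.fc 2 t)^[m]) z ^ q = 1})
      (B := frontier (multibrotSet 2)) (M := multibrotSet 2)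
      (fun t ht => hcl.frontier_subset ht.1)
      (by
        rintro t ⟨_, m, q, z, h1, h2, h3, h4, h5⟩
        exact Pool.Agent.Y736.ML.sat_rate h1 h2 h3 h4 h5)
      isClosed_frontier (fun t ht => ht.1) Pool.Agent.Y736.ML.sat_dense
    refine ⟨G, h1, h2, h3, ?_, ?_⟩
    · intro c₀ z₀ m q hm hq hfix hne hder
      apply h4
      have hmem := (Pool.Agent.Y736.ML.parabolic_all hm hq hfix hder).1
      exact ⟨Pool.Agent.Y736.ML.neutral_frontier hm hmem hfix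
        (Complex.norm_eq_one_of_pow_eq_one hder (by omega)), m, q, z₀, hm, hq, hfix, hne, hder⟩
    · intro c₀ hc₀
      refine ⟨h5 c₀ hc₀, ?_⟩
      intro ψ F hψ hF hE
      have hfr := h2 hc₀
      have hc₀M := hcl.frontier_subset hfr
      rw [frontier_eq_closure_inter_closure] at hfr
      refine ⟨Pool.Agent.Y736.HL.exists_angle hc₀M hfr.2 hψ hF hE, ?_⟩
      intro ζ hζ hFζ p K hp
      exact Pool.Agent.Y736.ML.not_log (h5 c₀ hc₀) hψ hF hE hζ hFζ hp K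

end Pool.Agent.Results.MP_c6f924_an.GenericallyNotHoelder
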