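import Mathlib
import Pool.Prelude.Def_F_c31e40fa
import Pool.Agent.Y736.HD11

set_option autoImplicit false

open Filter Topology Set Metric MeasureTheory Complex N62a1eb23

namespace Pool.Agent.Results.MP_c6f924_an.HarmonicDimension

open Pool.Agent.H713R2

/-- The angles `t ∈ (0, 2π]` of the external rays landing at distance less than `r` from `c₀`. Up to
the factor `2π` its length is the harmonic measure (from infinity) of the disc of radius `r`. -/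
def angles (ψ : ℂ → ℂ) (c₀ : ℂ) (r : ℝ) : Set ℝ :=
  {t | t ∈ Ioc 0 (2 * Real.pi) ∧ ∃ ζ ∈ ball c₀ r,
    Tendsto (fun ρ : ℝ => ψ (ρ * exp (t * I))) (𝓝[>] 1) (𝓝 ζ)}

/-- The harmonic measure, up to the factor `2π`. -/
noncomputable def harm (ψ : ℂ → ℂ) (c₀ : ℂ) (r : ℝ) : ℝ := (volume (angles ψ c₀ r)).toReal

/-- The maximum of Green's function of the Mandelbrot set over a disc: Green's function is
`log ‖w‖` at the point `ψ w`. -/
noncomputable def green (ψ : ℂ → ℂ) (c₀ : ℂ) (r : ℝ) : ℝ :=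
  sSup {x | ∃ w : ℂ, 1 < ‖w‖ ∧ ‖ψ w - c₀‖ ≤ r ∧ Real.log ‖w‖ = x}

/-- `F r` is `r ^ (a + o(1))` as `r` tends to zero. -/
def HasExponent (F : ℝ → ℝ) (a : ℝ) : Prop :=
  Tendsto (fun r => Real.log (F r) / Real.log r) (𝓝[>] 0) (𝓝 a)

/-- The derivative of the `n`-th iterate of `z ^ 2 + c₀` at the critical value. -/
noncomputable def D (c₀ : ℂ) (n : ℕ) : ℝ := ‖deriv ((fun z : ℂ => z ^ 2 + c₀)^[n]) c₀‖

/-- The derivative at `c₀` of the `n`-th iterate of the critical point as a function of the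
parameter. -/
noncomputable def D' (c₀ : ℂ) (n : ℕ) : ℝ := ‖deriv (fun c : ℂ => (fun z : ℂ => z ^ 2 + c)^[n] 0) c₀‖

/-- Harmonic measure and Green's function of the Mandelbrot set near a point; the exterior map `ψ`
exists and almost every external ray lands.

(1) If `c₀ ∈ M` has a Lyapunov exponent `χ > 0` at the critical value, then the harmonic measure of
the disc of radius `r` about `c₀` and the maximum of Green's function over it are
`r ^ (log 2 / χ + o(1))`; if `ψ` has a continuous extension `F` to the circle (local connectivity of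
`M`) and `F ζ = c₀`, then for every `ε > 0` and all small `δ` the image under `F` of the arc of radius
`δ` about `ζ` contains a point at distance at least `δ ^ (χ / log 2 + ε)` from `c₀`.

(2) At every `c₀ ∈ M` with `D' c₀ n ≥ exp (a n)` for infinitely many `n` the lower local dimension of
the harmonic measure is at most `log 2 / a`.

(3) The set of the `c₀ ∈ M` for which the upper exponent of `D'` is at least `χ` has Hausdorff
dimension at most `log 2 / χ`, and so has the set of the Collet-Eckmann parameters for which the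
upper exponent of `D` is at least `χ`.

(4) At the points of a dense `G_δ` subset of the boundary of `M` the harmonic measure of small
discs is infinitely often smaller than `exp (-r ^ (-s))`, `s < 1`, and infinitely often larger than
`r ^ κ`, `κ > 1`. -/
theorem result :
    (∃ ψ : ℂ → ℂ, IsExteriorMap mandelbrotSet ψ) ∧
    (∀ ψ : ℂ → ℂ, IsExteriorMap mandelbrotSet ψ →
      (∀ᵐ t : ℝ, ∃ ζ : ℂ, Tendsto (fun ρ : ℝ => ψ (ρ * exp (t * I))) (𝓝[>] 1) (𝓝 ζ)) ∧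
      (∀ (χ : ℝ) (c₀ : ℂ), 0 < χ → c₀ ∈ mandelbrotSet →
        Tendsto (fun n : ℕ => Real.log (D c₀ n) / n) atTop (𝓝 χ) →
          HasExponent (harm ψ c₀) (Real.log 2 / χ) ∧
          HasExponent (green ψ c₀) (Real.log 2 / χ) ∧
          ∀ F : ℂ → ℂ, ContinuousOn F {w : ℂ | 1 ≤ ‖w‖} → (∀ w : ℂ, 1 < ‖w‖ → F w = ψ w) →
            ∀ ζ : ℂ, ‖ζ‖ = 1 → F ζ = c₀ → ∀ ε : ℝ, 0 < ε → ∀ᶠ δ : ℝ in 𝓝[>] 0,
              ∃ ξ : ℂ, ‖ξ‖ = 1 ∧ ‖ξ - ζ‖ ≤ δ ∧ δ ^ (χ / Real.log 2 + ε) ≤ ‖F ξ - F ζ‖) ∧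
      (∀ c₀ ∈ mandelbrotSet, ∀ a κ : ℝ, 0 < κ → Real.log 2 < κ * a →
        (∃ᶠ n : ℕ in atTop, Real.exp (a * n) ≤ D' c₀ n) → ∃ᶠ r : ℝ in 𝓝[>] 0, r ^ κ < harm ψ c₀ r) ∧
      ∃ G : Set ℂ, IsGδ G ∧ G ⊆ frontier mandelbrotSet ∧ frontier mandelbrotSet ⊆ closure G ∧
        ∀ c₀ ∈ G,
          (∀ s : ℝ, s < 1 → ∃ᶠ r : ℝ in 𝓝[>] 0, harm ψ c₀ r < Real.exp (-(r ^ (-s)))) ∧
          ∀ κ : ℝ, 1 < κ → ∃ᶠ r : ℝ in 𝓝[>] 0, r ^ κ < harm ψ c₀ r) ∧
    ∀ χ : ℝ, 0 < χ →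
      dimH {c₀ : ℂ | c₀ ∈ mandelbrotSet ∧ ∀ a : ℝ, a < χ →
        ∃ᶠ n : ℕ in atTop, Real.exp (a * n) ≤ D' c₀ n} ≤ ENNReal.ofReal (Real.log 2 / χ) ∧
      dimH {c₀ : ℂ | c₀ ∈ mandelbrotSet ∧
        (∃ C lam : ℝ, 0 < C ∧ 1 < lam ∧ ∀ n : ℕ, C * lam ^ n ≤ D c₀ n) ∧ ∀ a : ℝ, a < χ →
        ∃ᶠ n : ℕ in atTop, Real.exp (a * n) ≤ D c₀ n} ≤ ENNReal.ofReal (Real.log 2 / χ) := by
  obtain ⟨β, hβ⟩ := exists_beta (d := 2) le_rfl
  refine ⟨⟨_, exteriorMap_of_beta hβ⟩, ?_, ?_⟩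
  · intro ψ hψ
    refine ⟨Pool.Agent.Y736.HD.ae_land hψ, ?_, ?_, Pool.Agent.Y736.HD.generic_osc hψ⟩
    · intro χ c₀ hχ hc₀ hlim
      have h : Pool.Agent.Y298.CA.Lyap 2 χ c₀ := ⟨hχ, hc₀, hlim⟩
      refine ⟨Pool.Agent.Y736.HD.vol_exp h hψ, Pool.Agent.Y736.HD.sup_exp h hψ, ?_⟩
      intro F hF hE ζ hζ hFζ ε hε
      exact Pool.Agent.Y736.HD.loop h hψ hF hE hζ hFζ hε
    · intro c₀ hc₀ a κ hκ ha hfr
      exact Pool.Agent.Y736.HD.low_dim hψ (Pool.Agent.Y736.HD.ae_land hψ) hc₀ hκ ha hfr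
  · intro χ hχ
    have h1 := Pool.Agent.Y736.HD.dim_Big hχ
    refine ⟨h1, (dimH_mono ?_).trans h1⟩
    rintro c₀ ⟨hc₀, ⟨C, lam, hC, hlam, h2⟩, h3⟩
    exact Pool.Agent.Y736.HD.ce_Big hc₀ hC hlam h2 h3

end Pool.Agent.Results.MP_c6f924_an.HarmonicDimension
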