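import Mathlib
import Pool.Prelude.Def_F_c31e40fa
import Pool.Agent.Y811.PC.Fin3

set_option autoImplicit false

/-!
# MP_c6f924_an: the parabolic contact law for the Mandelbrot set

The exact exponential rate at which the exterior map of the Mandelbrot set approaches a parabolic
parameter, at every parabolic parameter.

Proved by the project PC, the parts by helpers 48, 67, 70, 93, 151, 153, 154, 165, 167, 185, 274, 297,
331, 349, 350, 356, 366, 388, 419, 421, 429, 447, 448, 458, 475, 484, 510, 547, 587, 592, 606, 658, 672,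
678, 888, 978, 983 and 811; the tools on the exterior map by helpers 677, 712, 713 and 736.
-/

open Filter Topology Set Complex N62a1eb23

namespace Pool.Agent.Results.MP_c6f924_an.ParabolicContactLaw

open Pool.Agent.H713R2 Pool.Agent.H712R2 Pool.Agent.Y811.PC

/-- The `m`-th iterate of `z ^ 2 + c`. -/
def iter (m : ℕ) (c z : ℂ) : ℂ := (fun z : ℂ => z ^ 2 + c)^[m] z

/-- The derivative of the `m`-th iterate of `z ^ 2 + c`: the multiplier, at a point of period `m`. -/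
noncomputable def mult (m : ℕ) (c z : ℂ) : ℂ := deriv (iter m c) z

/-- `z₀` is a point of exact period `m` of `z ^ 2 + c₀` and its multiplier is a primitive `q`-th root of
unity: `c₀` is a parabolic parameter. -/
def IsParabolicPoint (m q : ℕ) (c₀ z₀ : ℂ) : Prop :=
  1 ≤ m ∧ 1 ≤ q ∧ iter m c₀ z₀ = z₀ ∧ (∀ j, 0 < j → j < m → iter j c₀ z₀ ≠ z₀) ∧
    IsPrimitiveRoot (mult m c₀ z₀) q

/-- The parabolic contact law for the Mandelbrot set: its exterior map `ψ` exists, and for every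
parabolic parameter `c₀`, `z₀` in its parabolic cycle of period `m`, the multiplier `λ` of order `q`:

(A) In the scale of the multiplier. For small `ε`, let `s(r)` be the supremum of `‖w‖ - 1` over the `w`,
`ψ w` `ε`-close to `c₀`, for which `z ^ 2 + ψ w` has a point `α` of period `m`, `ε`-close to `z₀`, with
multiplier `r`-close to `λ`. Then `r * log (1 / s(r)) → 2 π m log 2 / q` as `r → 0`. If `ψ` extends
continuously to the circle, then `‖multiplier - λ‖ * log (1 / (‖w‖ - 1))` has lower limit at least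
`2 π m log 2 / q` at every point `ζ` of the circle over `c₀`, with equality for some `ζ`.

(B) In the scale of the parameter, `λ ≠ 1`. Let `κ` be the derivative at `c₀` of the multiplier of the
point `al c` of period `m` which continues `z₀`. Then `κ ≠ 0` and the contact law holds with exponent `1`
and constant `2 π m log 2 / (q ‖κ‖)`.

(C) In the scale of the parameter, `λ = 1`. Let `D₁` and `D₂` be the derivative with respect to `c`, and
the second derivative with respect to `z`, of the `m`-th iterate at `c₀, z₀`. They are not `0` and the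
contact law holds with exponent `1 / 2` and constant `2 π m log 2 / √(2 ‖D₁‖ ‖D₂‖)`.

(D) Hence at `l / 2 - l ^ 2 / 4` (the points of the main cardioid), `l` a primitive `q`-th root of unity
with `q ≥ 2`: exponent `1` and constant `π log 2 ‖1 - l‖ / q`; at `1 / 4`: exponent `1 / 2` and constant
`π log 2`. -/
theorem result :
    (∃ ψ : ℂ → ℂ, IsExteriorMap mandelbrotSet ψ) ∧
    (∀ (m q : ℕ) (c₀ z₀ : ℂ), IsParabolicPoint m q c₀ z₀ →
      (∃ ε₀ : ℝ, 0 < ε₀ ∧ ∀ ψ : ℂ → ℂ, IsExteriorMap mandelbrotSet ψ →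
        (∀ ε : ℝ, 0 < ε → ε ≤ ε₀ → Tendsto (fun r : ℝ => r * Real.log (1 / sSup
          {h : ℝ | ∃ w α : ℂ, 1 < ‖w‖ ∧ h = ‖w‖ - 1 ∧ ‖ψ w - c₀‖ ≤ ε ∧ ‖α - z₀‖ ≤ ε ∧
            iter m (ψ w) α = α ∧ ‖mult m (ψ w) α - mult m c₀ z₀‖ ≤ r}))
          (𝓝[>] 0) (𝓝 (2 * Real.pi * m * Real.log 2 / q))) ∧
        ∀ F : ℂ → ℂ, ContinuousOn F {w : ℂ | 1 ≤ ‖w‖} → (∀ w : ℂ, 1 < ‖w‖ → F w = ψ w) →
          (∀ ζ : ℂ, ‖ζ‖ = 1 → F ζ = c₀ → ∀ δ : ℝ, 0 < δ → ∃ η : ℝ, 0 < η ∧ ∀ w : ℂ, 1 < ‖w‖ →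
            ‖w - ζ‖ < η → ∀ α : ℂ, ‖α - z₀‖ ≤ ε₀ → iter m (ψ w) α = α →
              2 * Real.pi * m * Real.log 2 / q - δ ≤
                ‖mult m (ψ w) α - mult m c₀ z₀‖ * Real.log (1 / (‖w‖ - 1))) ∧
          ∃ ζ : ℂ, ‖ζ‖ = 1 ∧ F ζ = c₀ ∧ ∀ δ η : ℝ, 0 < δ → 0 < η → ∃ w α : ℂ, 1 < ‖w‖ ∧
            ‖w - ζ‖ < η ∧ ‖α - z₀‖ < η ∧ iter m (ψ w) α = α ∧
              ‖mult m (ψ w) α - mult m c₀ z₀‖ * Real.log (1 / (‖w‖ - 1)) ≤
                2 * Real.pi * m * Real.log 2 / q + δ) ∧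
      (mult m c₀ z₀ ≠ 1 → ∃ (al : ℂ → ℂ) (κ : ℂ), AnalyticAt ℂ al c₀ ∧ al c₀ = z₀ ∧
        (∀ᶠ c in 𝓝 c₀, iter m c (al c) = al c) ∧
        HasDerivAt (fun c => mult m c (al c)) κ c₀ ∧ κ ≠ 0 ∧
          ∀ ψ : ℂ → ℂ, IsExteriorMap mandelbrotSet ψ →
            ContactLaw ψ c₀ 1 (2 * Real.pi * m * Real.log 2 / (q * ‖κ‖))) ∧
      (mult m c₀ z₀ = 1 →
        deriv (fun c => iter m c z₀) c₀ ≠ 0 ∧ deriv (deriv (iter m c₀)) z₀ ≠ 0 ∧
          ∀ ψ : ℂ → ℂ, IsExteriorMap mandelbrotSet ψ →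
            ContactLaw ψ c₀ (1 / 2) (2 * Real.pi * m * Real.log 2 /
              √(2 * ‖deriv (fun c => iter m c z₀) c₀‖ * ‖deriv (deriv (iter m c₀)) z₀‖)))) ∧
    ∀ ψ : ℂ → ℂ, IsExteriorMap mandelbrotSet ψ →
      (∀ (q : ℕ) (l : ℂ), 2 ≤ q → IsPrimitiveRoot l q →
        ContactLaw ψ (l / 2 - l ^ 2 / 4) 1 (Real.pi * Real.log 2 * ‖1 - l‖ / q)) ∧
      ContactLaw ψ (1 / 4) (1 / 2) (Real.pi * Real.log 2) := by
  obtain ⟨β, hβ⟩ := exists_beta (d := 2) le_rfl
  refine ⟨⟨_, exteriorMap_of_beta hβ⟩, ?_, ?_⟩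
  · rintro m q c₀ z₀ ⟨hm, hq, hfix, hper, hmul⟩
    have h := main_law hSAT hTRANS1 hPRIM (d := 2) le_rfl c₀ z₀ m q hm hq hfix hper hmul
    simp only [Nat.cast_ofNat] at h
    exact h
  · intro ψ hψ
    refine ⟨?_, ?_⟩
    · intro q l hq hl
      have h1 : IsPrimitiveRoot (((2 : ℕ) : ℂ) * (l / 2) ^ (2 - 1)) q := by
        have h2 : ((2 : ℕ) : ℂ) * (l / 2) ^ (2 - 1) = l := by
          norm_num
          ring
        rw [h2]
        exact hl
      have h := main_card (d := 2) le_rfl hq h1 hψ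
      have e1 : l / 2 - (l / 2) ^ 2 = l / 2 - l ^ 2 / 4 := by ring
      have e2 : ((2 : ℕ) : ℂ) * (l / 2) ^ (2 - 1) = l := by
        norm_num
        ring
      have e3 : ‖l / 2‖ = 1 / 2 := by
        rw [norm_div, hl.norm'_eq_one (by omega)]
        simp
      rw [e1, e2, e3] at h
      have e4 : 2 * Real.pi * Real.log ((2 : ℕ) : ℝ) / q * (‖1 - l‖ * (1 / 2) / (((2 : ℕ) : ℝ) - 1)) =
          Real.pi * Real.log 2 * ‖1 - l‖ / q := by
        push_cast
        ring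
      rw [e4] at h
      exact h
    · have h1 : ((2 : ℕ) : ℂ) * (1 / 2 : ℂ) ^ (2 - 1) = 1 := by norm_num
      have h := main_cusp (d := 2) le_rfl h1 hψ
      have e1 : (1 / 2 : ℂ) - (1 / 2) ^ 2 = 1 / 4 := by norm_num
      have e2 : ‖(1 / 2 : ℂ)‖ / (2 * (((2 : ℕ) : ℝ) - 1)) = (1 / 2) ^ 2 := by
        simp
        norm_num
      rw [e1, e2, Real.sqrt_sq (by norm_num)] at h
      have e4 : 2 * Real.pi * Real.log ((2 : ℕ) : ℝ) * (1 / 2) = Real.pi * Real.log 2 := by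
        push_cast
        ring
      rw [e4] at h
      exact h

end Pool.Agent.Results.MP_c6f924_an.ParabolicContactLaw
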