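import Mathlib
import Pool.Prelude.Def_F_c31e40fa
import Pool.Agent.Y272.LC.Out2

set_option autoImplicit false

/-!
# MP_c6f924_an: the exterior map of the Mandelbrot set at almost every point of the circle
-/

open MeasureTheory Filter Metric Complex Topology

namespace Pool.Agent.Results.MP_c6f924_an.TwoSidedRiemannMap

open N62a1eb23 Pool.Agent.H713R2 Pool.Agent.H712R2

/-- The exponent of the law of the iterated logarithm at the scale `h`. -/
noncomputable def E (h : ℝ) : ℝ :=
  33 * √(Real.log (1 / h) * Real.log (Real.log (Real.log (1 / h))))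

/-- Two-sided modulus of continuity of the exterior map `ψ` of the Mandelbrot set (`d = 2`) and of all
the Multibrot sets at almost every point of the circle: there is a boundary point `c₀` such that for
every small `h` the points at distance at most `h` from `exp (θ i)` are mapped into the disc of radius
`h * exp (E h)` about `c₀`, and the points at distance at least `h` out of the disc of radius
`h * exp (- E h)`. -/
theorem result (d : ℕ) (hd : 2 ≤ d) :
    (∃ ψ : ℂ → ℂ, IsExteriorMap (multibrotSet d) ψ) ∧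
    ∀ ψ : ℂ → ℂ, IsExteriorMap (multibrotSet d) ψ →
      ∀ᵐ θ : ℝ, ∃ c₀ ∈ frontier (multibrotSet d),
        ∀ᶠ h : ℝ in 𝓝[>] 0, ∀ z : ℂ, 1 < ‖z‖ →
          (‖z - Complex.exp (θ * I)‖ ≤ h → ‖ψ z - c₀‖ ≤ h * Real.exp (E h)) ∧
          (h ≤ ‖z - Complex.exp (θ * I)‖ → h * Real.exp (-E h) ≤ ‖ψ z - c₀‖) := by
  obtain ⟨β, hβ⟩ := Pool.Agent.H713R2.exists_beta (d := d) hd
  exact ⟨⟨_, exteriorMap_of_beta hβ⟩, fun ψ hψ => Pool.Agent.Y272.LC.two_sided_final hd hψ⟩

end Pool.Agent.Results.MP_c6f924_an.TwoSidedRiemannMap
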